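import Mathlib

set_option autoImplicit false

/-! The moments of a complex normal variable with mean `-k`. -/

namespace Pool.Agent.Run7.h145.JN

open MeasureTheory ProbabilityTheory Filter Topology

/-- the law of two independent standard normal variables -/
noncomputable def gg : Measure (ℝ × ℝ) := (gaussianReal 0 1).prod (gaussianReal 0 1)

/-- the density -/
noncomputable def dn (x : ℝ × ℝ) : ℝ := (2 * Real.pi)⁻¹ * Real.exp (-(x.1 ^ 2 + x.2 ^ 2) / 2)

lemma dn_nonneg (x : ℝ × ℝ) : 0 ≤ dn x := by unfold dn; positivity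

lemma dn_cont : Continuous dn := by unfold dn; fun_prop

lemma lint_gg (F : ℝ × ℝ → ENNReal) (hF : Measurable F) :
    ∫⁻ x, F x ∂gg = ∫⁻ x, ENNReal.ofReal (dn x) * F x := by
  unfold gg
  rw [gaussianReal_of_var_ne_zero 0 one_ne_zero, prod_withDensity (measurable_gaussianPDF 0 1) (measurable_gaussianPDF 0 1),
    lintegral_withDensity_eq_lintegral_mul _ (by
      exact ((measurable_gaussianPDF 0 1).comp measurable_fst).mul ((measurable_gaussianPDF 0 1).comp measurable_snd)) hF]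
  refine lintegral_congr fun x => ?_
  show gaussianPDF 0 1 x.1 * gaussianPDF 0 1 x.2 * F x = _
  congr 1
  unfold gaussianPDF
  rw [← ENNReal.ofReal_mul (gaussianPDFReal_nonneg _ _ _)]
  congr 1
  unfold gaussianPDFReal dn
  have h1 : (Real.sqrt (2 * Real.pi * ((1 : NNReal) : ℝ)))⁻¹ * (Real.sqrt (2 * Real.pi * ((1 : NNReal) : ℝ)))⁻¹ = (2 * Real.pi)⁻¹ := by
    rw [← mul_inv, Real.mul_self_sqrt (by positivity)]
    simp
  have h2 : Real.exp (-(x.1 ^ 2 + x.2 ^ 2) / 2) = Real.exp (-(x.1 - 0) ^ 2 / (2 * ((1 : NNReal) : ℝ))) * Real.exp (-(x.2 - 0) ^ 2 / (2 * ((1 : NNReal) : ℝ))) := by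
    rw [← Real.exp_add]
    congr 1
    simp
    ring
  rw [h2, ← h1]
  ring

/-- the angular integral -/
lemma angular (m : ℕ) : ∫ θ in (-Real.pi)..Real.pi, Real.cos θ ^ (2 * m) = 2 * Real.pi * ((2 * m).factorial : ℝ) / (4 ^ m * (m.factorial : ℝ) ^ 2) := by
  induction m with
  | zero =>
    simp
    ring
  | succ m ih =>
    have e : 2 * (m + 1) = 2 * m + 2 := by ring
    rw [e, integral_cos_pow, ih]
    have h1 : ((2 * m + 2).factorial : ℝ) = (2 * m + 2) * ((2 * m + 1) * ((2 * m).factorial : ℝ)) := by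
      rw [Nat.factorial_succ, Nat.factorial_succ]
      push_cast
      ring
    have h2 : ((m + 1).factorial : ℝ) = (m + 1) * (m.factorial : ℝ) := by
      rw [Nat.factorial_succ]
      push_cast
      ring
    rw [h1, h2]
    have h3 : (m.factorial : ℝ) ≠ 0 := by positivity
    have h4 : (m : ℝ) + 1 ≠ 0 := by positivity
    have h5 : ((2 * m : ℕ) : ℝ) + 2 ≠ 0 := by positivity
    simp only [Real.sin_pi, Real.sin_neg, mul_zero, neg_zero, sub_zero, zero_div, zero_add]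
    push_cast
    push_cast at h5
    rw [pow_succ (4:ℝ) m]
    field_simp
    ring

/-- the radial integral -/
lemma radial {h : ℝ} (hh : 0 ≤ h) (m : ℕ) :
    IntegrableOn (fun r : ℝ => r * (r ^ 2 / 2) ^ h * r ^ (2 * m) * Real.exp (-r ^ 2 / 2)) (Set.Ioi 0) ∧
    ∫ r in Set.Ioi (0:ℝ), r * (r ^ 2 / 2) ^ h * r ^ (2 * m) * Real.exp (-r ^ 2 / 2) = 2 ^ m * Real.Gamma (h + m + 1) := by
  have h1 : ∀ r ∈ Set.Ioi (0:ℝ), r * (r ^ 2 / 2) ^ h * r ^ (2 * m) * Real.exp (-r ^ 2 / 2) =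
      (2:ℝ) ^ (-h) * (r ^ (2 * h + 2 * m + 1) * Real.exp (-(1 / 2) * r ^ (2:ℝ))) := by
    intro r hr
    have hr : 0 < r := hr
    rw [Real.div_rpow (by positivity) (by norm_num), ← Real.rpow_natCast r 2, ← Real.rpow_mul hr.le, Real.rpow_neg (by norm_num),
      Real.rpow_add hr, Real.rpow_add hr, Real.rpow_one, ← Real.rpow_natCast r (2 * m)]
    push_cast
    have e : -r ^ (2:ℝ) / 2 = -(1 / 2) * r ^ (2:ℝ) := by ring
    rw [e]
    ring
  have hp : (-1:ℝ) < 2 * h + 2 * m + 1 := by have : (0:ℝ) ≤ m := Nat.cast_nonneg m; linarith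
  have h2 := integrableOn_rpow_mul_exp_neg_mul_rpow hp (by norm_num : (0:ℝ) < 2) (by norm_num : (0:ℝ) < 1 / 2)
  have h3 := integral_rpow_mul_exp_neg_mul_rpow (by norm_num : (0:ℝ) < 2) hp (by norm_num : (0:ℝ) < 1 / 2)
  have h4 : IntegrableOn (fun r : ℝ => (2:ℝ) ^ (-h) * (r ^ (2 * h + 2 * (m:ℝ) + 1) * Real.exp (-(1 / 2) * r ^ (2:ℝ)))) (Set.Ioi 0) := h2.const_mul _
  refine ⟨IntegrableOn.congr_fun h4 (fun r hr => (h1 r hr).symm) measurableSet_Ioi, ?_⟩
  rw [setIntegral_congr_fun measurableSet_Ioi h1, integral_const_mul, h3]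
  have e1 : (2 * h + 2 * (m:ℝ) + 1 + 1) / 2 = h + m + 1 := by ring
  have e2 : -(2 * h + 2 * (m:ℝ) + 1 + 1) / 2 = -(h + m + 1) := by ring
  rw [e1, e2, one_div, Real.inv_rpow (by norm_num), ← Real.rpow_neg (by norm_num), neg_neg, Real.rpow_add (by norm_num),
    Real.rpow_add (by norm_num), Real.rpow_one, Real.rpow_natCast, Real.rpow_neg (by norm_num)]
  have h5 : (0:ℝ) < 2 ^ h := by positivity
  field_simp

/-- the radial factor -/
noncomputable def Ph (h : ℝ) (x : ℝ × ℝ) : ℝ := ((x.1 ^ 2 + x.2 ^ 2) / 2) ^ h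

lemma Ph_nonneg (h : ℝ) (x : ℝ × ℝ) : 0 ≤ Ph h x := by unfold Ph; positivity

lemma Ph_cont {h : ℝ} (hh : 0 ≤ h) : Continuous (Ph h) := by
  unfold Ph
  exact Continuous.rpow_const (by fun_prop) fun _ => Or.inr hh

lemma term {h : ℝ} (hh : 0 ≤ h) (k : ℝ) (m : ℕ) :
    ∫⁻ x : ℝ × ℝ, ENNReal.ofReal (dn x * Ph h x * ((Real.sqrt 2 * k * x.1) ^ (2 * m) / ((2 * m).factorial : ℝ))) =
      ENNReal.ofReal ((k ^ 2) ^ m * Real.Gamma (h + m + 1) / (m.factorial : ℝ) ^ 2) := by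
  obtain ⟨A, hA⟩ : ∃ A : ℝ → ℝ, ∀ r, A r = r * (r ^ 2 / 2) ^ h * r ^ (2 * m) * Real.exp (-r ^ 2 / 2) := ⟨_, fun _ => rfl⟩
  obtain ⟨B, hB⟩ : ∃ B : ℝ → ℝ, ∀ θ, B θ = (2 * Real.pi)⁻¹ * ((Real.sqrt 2 * k) ^ (2 * m) / ((2 * m).factorial : ℝ)) * Real.cos θ ^ (2 * m) := ⟨_, fun _ => rfl⟩
  have hA' : A = fun r => r * (r ^ 2 / 2) ^ h * r ^ (2 * m) * Real.exp (-r ^ 2 / 2) := funext hA
  have hB' : B = fun θ => (2 * Real.pi)⁻¹ * ((Real.sqrt 2 * k) ^ (2 * m) / ((2 * m).factorial : ℝ)) * Real.cos θ ^ (2 * m) := funext hB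
  have hBc : Continuous B := by rw [hB']; fun_prop
  have hAc : Continuous A := by
    rw [hA']
    refine Continuous.mul (Continuous.mul (Continuous.mul continuous_id ?_) (by fun_prop)) (by fun_prop)
    exact Continuous.rpow_const (by fun_prop) fun _ => Or.inr hh
  have hB0 : ∀ θ, 0 ≤ B θ := by
    intro θ
    rw [hB]
    have h1 : 0 ≤ (Real.sqrt 2 * k) ^ (2 * m) := by rw [pow_mul]; positivity
    have h2 : 0 ≤ Real.cos θ ^ (2 * m) := by rw [pow_mul]; positivity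
    positivity
  rw [← lintegral_comp_polarCoord_symm]
  have h1 : ∀ p ∈ polarCoord.target, ENNReal.ofReal p.1 • ENNReal.ofReal (dn (polarCoord.symm p) * Ph h (polarCoord.symm p) *
      ((Real.sqrt 2 * k * (polarCoord.symm p).1) ^ (2 * m) / ((2 * m).factorial : ℝ))) = ENNReal.ofReal (A p.1) * ENNReal.ofReal (B p.2) := by
    rintro ⟨r, θ⟩ hp
    have hr : 0 < r := hp.1
    rw [polarCoord_symm_apply, smul_eq_mul, ← ENNReal.ofReal_mul hr.le, ← ENNReal.ofReal_mul (by rw [hA]; positivity)]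
    congr 1
    have e1 : (r * Real.cos θ) ^ 2 + (r * Real.sin θ) ^ 2 = r ^ 2 := by
      have := Real.sin_sq_add_cos_sq θ
      linear_combination r ^ 2 * this
    show r * (dn (r * Real.cos θ, r * Real.sin θ) * Ph h (r * Real.cos θ, r * Real.sin θ) *
      ((Real.sqrt 2 * k * (r * Real.cos θ)) ^ (2 * m) / ((2 * m).factorial : ℝ))) = A r * B θ
    unfold dn Ph
    simp only [e1]
    rw [hA, hB]
    have e2 : (Real.sqrt 2 * k * (r * Real.cos θ)) ^ (2 * m) = (Real.sqrt 2 * k) ^ (2 * m) * r ^ (2 * m) * Real.cos θ ^ (2 * m) := by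
      rw [← mul_pow, ← mul_pow]
      congr 1
      ring
    rw [e2]
    ring
  have hms : MeasurableSet polarCoord.target := polarCoord.open_target.measurableSet
  rw [setLIntegral_congr_fun hms h1]
  have h2 : (volume : Measure (ℝ × ℝ)).restrict polarCoord.target = (volume.restrict (Set.Ioi (0:ℝ))).prod (volume.restrict (Set.Ioo (-Real.pi) Real.pi)) := by
    rw [Measure.prod_restrict, ← Measure.volume_eq_prod]
    rfl
  rw [h2, lintegral_prod_mul (f := fun r => ENNReal.ofReal (A r)) (g := fun θ => ENNReal.ofReal (B θ)) hAc.measurable.ennreal_ofReal.aemeasurable hBc.measurable.ennreal_ofReal.aemeasurable]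
  obtain ⟨h3, h4⟩ := radial hh m
  rw [← hA'] at h3 h4
  have hA0 : 0 ≤ᵐ[volume.restrict (Set.Ioi (0:ℝ))] A := by
    refine (ae_restrict_iff' measurableSet_Ioi).mpr (Eventually.of_forall fun r hr => ?_)
    have hr : 0 < r := hr
    rw [hA]
    positivity
  have hBi : Integrable B (volume.restrict (Set.Ioo (-Real.pi) Real.pi)) :=
    (hBc.continuousOn.integrableOn_compact (isCompact_Icc (a := -Real.pi) (b := Real.pi))).mono_set Set.Ioo_subset_Icc_self
  have h5 : ∫ θ in Set.Ioo (-Real.pi) Real.pi, B θ = (2 * Real.pi)⁻¹ * ((Real.sqrt 2 * k) ^ (2 * m) / ((2 * m).factorial : ℝ)) *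
      (2 * Real.pi * ((2 * m).factorial : ℝ) / (4 ^ m * (m.factorial : ℝ) ^ 2)) := by
    rw [← integral_Ioc_eq_integral_Ioo, ← intervalIntegral.integral_of_le (by linarith [Real.pi_pos]), ← angular m,
      ← intervalIntegral.integral_const_mul, hB']
  rw [← ofReal_integral_eq_lintegral_ofReal h3 hA0, ← ofReal_integral_eq_lintegral_ofReal hBi (Eventually.of_forall hB0), h4, h5,
    ← ENNReal.ofReal_mul (by
      have : 0 < Real.Gamma (h + m + 1) := Real.Gamma_pos_of_pos (by positivity)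
      positivity)]
  congr 1
  have e3 : (Real.sqrt 2 * k) ^ (2 * m) = 2 ^ m * (k ^ 2) ^ m := by
    rw [pow_mul, mul_pow, Real.sq_sqrt (by norm_num), mul_pow]
  have e4 : (4:ℝ) ^ m = 2 ^ m * 2 ^ m := by rw [← mul_pow]; norm_num
  rw [e3, e4]
  have := Real.pi_pos
  field_simp

/-- the moments in terms of lower integrals -/
lemma lmom {h : ℝ} (hh : 0 ≤ h) (k : ℝ) :
    ∫⁻ x, ENNReal.ofReal (Ph h (x.1 - Real.sqrt 2 * k, x.2)) ∂gg =
      ENNReal.ofReal (Real.exp (-k ^ 2)) * ∑' m : ℕ, ENNReal.ofReal ((k ^ 2) ^ m * Real.Gamma (h + m + 1) / (m.factorial : ℝ) ^ 2) := by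
  obtain ⟨a, ha⟩ : ∃ a : ℝ, a = Real.sqrt 2 * k := ⟨_, rfl⟩
  have ha2 : a ^ 2 / 2 = k ^ 2 := by
    rw [ha, mul_pow, Real.sq_sqrt (by norm_num)]
    ring
  rw [← ha]
  have hPc := Ph_cont hh
  have hPa : Continuous fun x : ℝ × ℝ => Ph h (x.1 - a, x.2) := hPc.comp (by fun_prop)
  rw [lint_gg (fun x => ENNReal.ofReal (Ph h (x.1 - a, x.2))) hPa.measurable.ennreal_ofReal]
  obtain ⟨Q, hQ⟩ : ∃ Q : ℝ × ℝ → ℝ, ∀ x, Q x = dn x * Ph h x := ⟨_, fun _ => rfl⟩
  have hQc : Continuous Q := by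
    have : Q = fun x => dn x * Ph h x := funext hQ
    rw [this]
    exact dn_cont.mul hPc
  have hQ0 : ∀ x, 0 ≤ Q x := fun x => by rw [hQ]; exact mul_nonneg (dn_nonneg x) (Ph_nonneg h x)
  have h1 : ∫⁻ x : ℝ × ℝ, ENNReal.ofReal (dn x) * ENNReal.ofReal (Ph h (x.1 - a, x.2)) =
      ∫⁻ x : ℝ × ℝ, ENNReal.ofReal (Real.exp (-k ^ 2)) * ENNReal.ofReal (Q x * Real.exp (-(a * x.1))) := by
    rw [← lintegral_add_right_eq_self (μ := volume) (fun x : ℝ × ℝ => ENNReal.ofReal (dn x) * ENNReal.ofReal (Ph h (x.1 - a, x.2))) (a, 0)]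
    refine lintegral_congr fun x => ?_
    rw [← ENNReal.ofReal_mul (dn_nonneg _), ← ENNReal.ofReal_mul (Real.exp_pos _).le]
    congr 1
    have e1 : ((x + (a, 0)).1 - a, (x + (a, 0)).2) = x := by
      ext <;> simp
    rw [e1, hQ]
    have e2 : dn (x + (a, 0)) = Real.exp (-k ^ 2) * dn x * Real.exp (-(a * x.1)) := by
      unfold dn
      have e3 : Real.exp (-((x + (a, 0)).1 ^ 2 + (x + (a, 0)).2 ^ 2) / 2) = Real.exp (-k ^ 2) * Real.exp (-(x.1 ^ 2 + x.2 ^ 2) / 2) * Real.exp (-(a * x.1)) := by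
        rw [← Real.exp_add, ← Real.exp_add]
        congr 1
        simp only [Prod.fst_add, Prod.snd_add]
        linear_combination (-1:ℝ) * ha2
      rw [e3]
      ring
    rw [e2]
    ring
  rw [h1, lintegral_const_mul _ (by fun_prop)]
  congr 1
  -- symmetrisation
  obtain ⟨J, hJ⟩ : ∃ J : ENNReal, J = ∫⁻ x : ℝ × ℝ, ENNReal.ofReal (Q x * Real.exp (-(a * x.1))) := ⟨_, rfl⟩
  have h2 : J = ∫⁻ x : ℝ × ℝ, ENNReal.ofReal (Q x * Real.exp (a * x.1)) := by
    rw [hJ, ← lintegral_neg_eq_self (μ := volume)]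
    refine lintegral_congr fun x => ?_
    congr 1
    have e1 : Q (-x) = Q x := by
      rw [hQ, hQ]
      unfold dn Ph
      simp
    rw [e1]
    simp
  have h3 : 2 * J = 2 * ∫⁻ x : ℝ × ℝ, ENNReal.ofReal (Q x * Real.cosh (a * x.1)) := by
    rw [two_mul]
    nth_rw 1 [h2]
    rw [hJ, ← lintegral_add_left (by fun_prop), ← lintegral_const_mul _ (by fun_prop)]
    refine lintegral_congr fun x => ?_
    rw [← ENNReal.ofReal_add (mul_nonneg (hQ0 x) (Real.exp_pos _).le) (mul_nonneg (hQ0 x) (Real.exp_pos _).le)]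
    have e2 : (2:ENNReal) = ENNReal.ofReal 2 := by simp
    rw [e2, ← ENNReal.ofReal_mul (by norm_num)]
    congr 1
    rw [Real.cosh_eq]
    ring
  have h4 : J = ∫⁻ x : ℝ × ℝ, ENNReal.ofReal (Q x * Real.cosh (a * x.1)) :=
    (ENNReal.mul_right_inj two_ne_zero (by simp)).mp h3
  rw [← hJ, h4]
  have h5 : ∀ x : ℝ × ℝ, ENNReal.ofReal (Q x * Real.cosh (a * x.1)) = ∑' m : ℕ, ENNReal.ofReal (dn x * Ph h x * ((Real.sqrt 2 * k * x.1) ^ (2 * m) / ((2 * m).factorial : ℝ))) := by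
    intro x
    have e1 := (Real.hasSum_cosh (a * x.1)).mul_left (Q x)
    rw [← e1.tsum_eq, ENNReal.ofReal_tsum_of_nonneg (fun m => mul_nonneg (hQ0 x) (div_nonneg (by rw [pow_mul]; positivity) (by positivity))) e1.summable,
      hQ, ha]
  simp_rw [h5]
  rw [lintegral_tsum fun m => by
    refine (Continuous.measurable ?_).ennreal_ofReal.aemeasurable
    exact (dn_cont.mul hPc).mul (by fun_prop)]
  exact tsum_congr fun m => term hh k m

/-- a standard complex normal variable, as a function of two independent standard real normal variables -/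
noncomputable def gau (x : ℝ × ℝ) : ℂ := ((x.1 : ℂ) + Complex.I * (x.2 : ℂ)) / (Real.sqrt 2 : ℂ)

lemma gau_cont : Continuous gau := by unfold gau; fun_prop

lemma gau_norm (h k : ℝ) (x : ℝ × ℝ) : ‖gau x - k‖ ^ (2 * h) = Ph h (x.1 - Real.sqrt 2 * k, x.2) := by
  have hs : Real.sqrt 2 ≠ 0 := by positivity
  have hs2 : Real.sqrt 2 ^ 2 = 2 := Real.sq_sqrt (by norm_num)
  have e1 : gau x - k = (((x.1 - Real.sqrt 2 * k) / Real.sqrt 2 : ℝ) : ℂ) + ((x.2 / Real.sqrt 2 : ℝ) : ℂ) * Complex.I := by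
    unfold gau
    have hs' : (Real.sqrt 2 : ℂ) ≠ 0 := by exact_mod_cast hs
    push_cast
    field_simp
    ring
  have e2 : ‖gau x - k‖ ^ 2 = ((x.1 - Real.sqrt 2 * k) ^ 2 + x.2 ^ 2) / 2 := by
    rw [e1, ← Complex.normSq_eq_norm_sq, Complex.normSq_add_mul_I, div_pow, div_pow, hs2]
    ring
  unfold Ph
  simp only
  rw [← e2, ← Real.rpow_natCast, ← Real.rpow_mul (norm_nonneg _)]
  norm_num

/-- **the moments** -/
theorem mom {h : ℝ} (hh : 0 ≤ h) (k : ℝ) :
    ∫ x, ‖gau x - k‖ ^ (2 * h) ∂gg = Real.exp (-k ^ 2) * ∑' m : ℕ, (k ^ 2) ^ m * Real.Gamma (h + m + 1) / (m.factorial : ℝ) ^ 2 := by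
  rw [integral_eq_lintegral_of_nonneg_ae (Eventually.of_forall fun x => by positivity) (by
    have : (fun x => ‖gau x - k‖ ^ (2 * h)) = fun x : ℝ × ℝ => Ph h (x.1 - Real.sqrt 2 * k, x.2) := funext fun x => gau_norm h k x
    rw [this]
    exact ((Ph_cont hh).comp (by fun_prop)).aestronglyMeasurable)]
  simp_rw [gau_norm]
  rw [lmom hh k, ENNReal.toReal_mul, ENNReal.toReal_ofReal (Real.exp_pos _).le, ENNReal.tsum_toReal_eq fun m => ENNReal.ofReal_ne_top]
  congr 1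
  refine tsum_congr fun m => ENNReal.toReal_ofReal ?_
  have : 0 < Real.Gamma (h + m + 1) := Real.Gamma_pos_of_pos (by positivity)
  positivity

end Pool.Agent.Run7.h145.JN
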