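import Pool.Agent.Run7.h145.JN.A
import Pool.Agent.Run7.h145.JN.B

set_option autoImplicit false

/-! The derivative of the field, and homogeneous functions of the value and the derivative. -/

namespace Pool.Agent.Run7.h145.JN

open MeasureTheory ProbabilityTheory Filter Topology

/-- the random analytic function -/
noncomputable def field (k : ℝ) (ω : ℕ → ℝ × ℝ) (w : ℂ) : ℂ :=
  -(k * Complex.log ((1 + w) / 2)) + ∑' m : ℕ, ((w - 1) / (w + 1)) ^ (m + 1) * gau (ω m) / (Real.sqrt ((m : ℝ) + 1) : ℂ)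

lemma field_one (k : ℝ) (ω : ℕ → ℝ × ℝ) : field k ω 1 = 0 := by
  unfold field
  have h1 : ((1:ℂ) + 1) / 2 = 1 := by norm_num
  rw [h1, Complex.log_one]
  simp

lemma gau_le (x : ℝ × ℝ) : ‖gau x‖ ≤ |x.1| + |x.2| := by
  unfold gau
  rw [norm_div, Complex.norm_real, Real.norm_of_nonneg (Real.sqrt_nonneg _)]
  have h1 : (1:ℝ) ≤ Real.sqrt 2 := by
    rw [Real.one_le_sqrt]
    norm_num
  refine (div_le_self (norm_nonneg _) h1).trans ((norm_add_le _ _).trans ?_)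
  rw [norm_mul, Complex.norm_I, one_mul, Complex.norm_real, Complex.norm_real, Real.norm_eq_abs, Real.norm_eq_abs]

/-- the derivative of a power series without constant term -/
lemma ser_deriv (c : ℕ → ℂ) (hc : Summable fun m : ℕ => (1 / 2 : ℝ) ^ m * ‖c m‖) :
    HasDerivAt (fun z : ℂ => ∑' m : ℕ, z ^ (m + 1) * c m) (c 0) 0 := by
  have hc1 : Summable fun m : ℕ => (1 / 2 : ℝ) ^ (m + 1) * ‖c (m + 1)‖ := (summable_nat_add_iff 1).mpr hc
  obtain ⟨C, hC⟩ : ∃ C : ℝ, C = ∑' m : ℕ, (1 / 2 : ℝ) ^ (m + 1) * ‖c (m + 1)‖ := ⟨_, rfl⟩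
  have key : ∀ z ∈ Metric.closedBall (0:ℂ) (1 / 2), (∑' m : ℕ, z ^ (m + 1) * c m) = z * c 0 + ∑' m : ℕ, z ^ (m + 2) * c (m + 1) ∧
      ‖∑' m : ℕ, z ^ (m + 2) * c (m + 1)‖ ≤ 2 * C * ‖z - 0‖ ^ 2 := by
    intro z hz
    have hz1 : ‖z‖ ≤ 1 / 2 := mem_closedBall_zero_iff.mp hz
    have hs : Summable fun m : ℕ => z ^ (m + 1) * c m := by
      refine Summable.of_norm_bounded hc fun m => ?_
      rw [norm_mul, norm_pow]
      refine mul_le_mul_of_nonneg_right ?_ (norm_nonneg _)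
      calc ‖z‖ ^ (m + 1) ≤ (1 / 2) ^ (m + 1) := pow_le_pow_left₀ (norm_nonneg _) hz1 _
        _ ≤ (1 / 2) ^ m := pow_le_pow_of_le_one (by norm_num) (by norm_num) (Nat.le_succ m)
    refine ⟨?_, ?_⟩
    · rw [hs.tsum_eq_zero_add]
      simp
    · have h3 : ∀ m : ℕ, ‖z ^ (m + 2) * c (m + 1)‖ ≤ 2 * ‖z‖ ^ 2 * ((1 / 2 : ℝ) ^ (m + 1) * ‖c (m + 1)‖) := by
        intro m
        rw [norm_mul, norm_pow, pow_add]
        have h4 : ‖z‖ ^ m ≤ (1 / 2) ^ m := pow_le_pow_left₀ (norm_nonneg _) hz1 _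
        have h5 : 0 ≤ ‖z‖ ^ 2 * ‖c (m + 1)‖ := by positivity
        have h6 := mul_le_mul_of_nonneg_right h4 h5
        calc ‖z‖ ^ m * ‖z‖ ^ 2 * ‖c (m + 1)‖ = ‖z‖ ^ m * (‖z‖ ^ 2 * ‖c (m + 1)‖) := by ring
          _ ≤ (1 / 2) ^ m * (‖z‖ ^ 2 * ‖c (m + 1)‖) := h6
          _ = 2 * ‖z‖ ^ 2 * ((1 / 2 : ℝ) ^ (m + 1) * ‖c (m + 1)‖) := by
            rw [pow_succ]
            ring
      have h7 := tsum_of_norm_bounded (hc1.hasSum.mul_left (2 * ‖z‖ ^ 2)) h3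
      rw [← hC] at h7
      refine h7.trans (le_of_eq ?_)
      rw [sub_zero]
      ring
  have hnb : Metric.closedBall (0:ℂ) (1 / 2) ∈ 𝓝 (0:ℂ) := Metric.closedBall_mem_nhds _ (by norm_num)
  have h8 : HasFDerivAt (fun z : ℂ => ∑' m : ℕ, z ^ (m + 2) * c (m + 1)) (0 : ℂ →L[ℂ] ℂ) 0 := by
    refine Asymptotics.IsBigO.hasFDerivAt (n := 2) ?_ (by norm_num)
    refine Asymptotics.IsBigO.of_bound (2 * C) ?_
    filter_upwards [hnb] with z hz
    refine (key z hz).2.trans (le_of_eq ?_)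
    rw [norm_pow, norm_norm]
  have h9 : HasDerivAt (fun z : ℂ => ∑' m : ℕ, z ^ (m + 2) * c (m + 1)) 0 0 := by
    have := h8.hasDerivAt
    simpa using this
  have h10 : HasDerivAt (fun z : ℂ => z * c 0 + ∑' m : ℕ, z ^ (m + 2) * c (m + 1)) (c 0) 0 := by
    have h11 : HasDerivAt (fun z : ℂ => z * c 0 + ∑' m : ℕ, z ^ (m + 2) * c (m + 1)) (1 * c 0 + 0) 0 :=
      ((hasDerivAt_id (0:ℂ)).mul_const (c 0)).add h9
    rwa [one_mul, add_zero] at h11
  refine h10.congr_of_eventuallyEq ?_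
  filter_upwards [hnb] with z hz
  exact (key z hz).1

lemma field_deriv (k : ℝ) (ω : ℕ → ℝ × ℝ) (hω : Summable fun m : ℕ => (1 / 2 : ℝ) ^ m * (|(ω m).1| + |(ω m).2|)) :
    HasDerivAt (field k ω) ((gau (ω 0) - k) / 2) 1 := by
  have hc : Summable fun m : ℕ => (1 / 2 : ℝ) ^ m * ‖gau (ω m) / (Real.sqrt ((m : ℝ) + 1) : ℂ)‖ := by
    refine Summable.of_nonneg_of_le (fun m => by positivity) (fun m => ?_) hω
    refine mul_le_mul_of_nonneg_left ?_ (by positivity)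
    rw [norm_div, Complex.norm_real, Real.norm_of_nonneg (Real.sqrt_nonneg _)]
    have h1 : (1:ℝ) ≤ Real.sqrt ((m:ℝ) + 1) := by
      rw [Real.one_le_sqrt]
      have : (0:ℝ) ≤ m := Nat.cast_nonneg m
      linarith
    exact (div_le_self (norm_nonneg _) h1).trans (gau_le _)
  have h1 := ser_deriv (fun m => gau (ω m) / (Real.sqrt ((m : ℝ) + 1) : ℂ)) hc
  have h2 : HasDerivAt (fun w : ℂ => (w - 1) / (w + 1)) (1 / 2) 1 := by
    have h3 := ((hasDerivAt_id (1:ℂ)).sub_const 1).div ((hasDerivAt_id (1:ℂ)).add_const 1) (by norm_num)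
    have h4 : (1 * (id (1:ℂ) + 1) - (id (1:ℂ) - 1) * 1) / (id (1:ℂ) + 1) ^ 2 = 1 / 2 := by
      simp
      norm_num
    rw [h4] at h3
    exact h3
  have h5 : HasDerivAt (fun w : ℂ => ∑' m : ℕ, ((w - 1) / (w + 1)) ^ (m + 1) * (gau (ω m) / (Real.sqrt ((m : ℝ) + 1) : ℂ)))
      (gau (ω 0) / (Real.sqrt (((0:ℕ) : ℝ) + 1) : ℂ) * (1 / 2)) 1 := by
    refine HasDerivAt.comp (h₂ := fun z : ℂ => ∑' m : ℕ, z ^ (m + 1) * (gau (ω m) / (Real.sqrt ((m : ℝ) + 1) : ℂ))) (1:ℂ) ?_ h2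
    have h6 : ((1:ℂ) - 1) / (1 + 1) = 0 := by simp
    rw [h6]
    exact h1
  have h7 : HasDerivAt (fun w : ℂ => -((k:ℂ) * Complex.log ((1 + w) / 2))) (-((k:ℂ) * (1 / 2))) 1 := by
    have h8 : HasDerivAt (fun w : ℂ => (1 + w) / 2) (1 / 2) 1 := ((hasDerivAt_id (1:ℂ)).const_add 1).div_const 2
    have h9 : ((1:ℂ) + 1) / 2 = 1 := by norm_num
    have h10 : HasDerivAt (fun w : ℂ => Complex.log ((1 + w) / 2)) (1 / 2) 1 := by
      have h11 := h8.clog (by rw [h9]; simp)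
      rwa [h9, div_one] at h11
    exact (h10.const_mul _).neg
  have h12 := h7.add h5
  have h13 : -((k:ℂ) * (1 / 2)) + gau (ω 0) / (Real.sqrt (((0:ℕ) : ℝ) + 1) : ℂ) * (1 / 2) = (gau (ω 0) - k) / 2 := by
    simp
    ring
  rw [h13] at h12
  refine h12.congr_of_eventuallyEq (Eventually.of_forall fun w => ?_)
  show field k ω w = _ + _
  unfold field
  congr 1
  exact tsum_congr fun m => by ring

/-- homogeneous functions of the value and the derivative -/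
noncomputable def he (k : ℝ) (F : ℂ → ℂ) (z : Fin 2 → ℂ) : ℂ := ((‖z 0‖ ^ (2 * k) : ℝ) : ℂ) * F (z 1 / z 0)

lemma he_hom {k : ℝ} (hk : 0 < k) (F : ℂ → ℂ) (u : ℂ) (z : Fin 2 → ℂ) : he k F (u • z) = ((‖u‖ ^ (2 * k) : ℝ) : ℂ) * he k F z := by
  unfold he
  simp only [Pi.smul_apply, smul_eq_mul]
  rcases eq_or_ne u 0 with h | h
  · subst h
    have h1 : (0:ℝ) ^ (2 * k) = 0 := Real.zero_rpow (by positivity)
    simp [h1]
  · rw [mul_div_mul_left _ _ h, norm_mul, Real.mul_rpow (norm_nonneg _) (norm_nonneg _)]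
    push_cast
    ring

lemma he_cont {k : ℝ} (hk : 0 < k) {F : ℂ → ℂ} (hF : Continuous F)
    (hF2 : ∀ ε : ℝ, 0 < ε → ∃ R : ℝ, ∀ z : ℂ, R ≤ ‖z‖ → ‖F z‖ ≤ ε * ‖z‖ ^ (2 * k)) : Continuous (he k F) := by
  refine continuous_iff_continuousAt.mpr fun z => ?_
  have h0 : ContinuousAt (fun z : Fin 2 → ℂ => z 0) z := (continuous_apply 0).continuousAt
  have h1 : ContinuousAt (fun z : Fin 2 → ℂ => z 1) z := (continuous_apply 1).continuousAt
  have hn : ContinuousAt (fun z : Fin 2 → ℂ => ‖z 0‖ ^ (2 * k)) z := h0.norm.rpow_const (Or.inr (by positivity))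
  rcases eq_or_ne (z 0) 0 with hz | hz
  · have hv : he k F z = 0 := by
      unfold he
      rw [hz, norm_zero, Real.zero_rpow (by positivity)]
      simp
    unfold ContinuousAt
    rw [hv, Metric.tendsto_nhds]
    intro ε hε
    obtain ⟨c, hc⟩ : ∃ c : ℝ, c = ε / (2 * (‖z 1‖ ^ (2 * k) + 1)) := ⟨_, rfl⟩
    have hc0 : 0 < c := by rw [hc]; positivity
    obtain ⟨R, hR⟩ := hF2 c hc0
    obtain ⟨M, hM⟩ := (isCompact_closedBall (0:ℂ) R).exists_bound_of_continuousOn hF.continuousOn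
    have hb : ∀ w : ℂ, ‖F w‖ ≤ |M| + c * ‖w‖ ^ (2 * k) := by
      intro w
      rcases le_total ‖w‖ R with h | h
      · have h2 := (hM w (mem_closedBall_zero_iff.mpr h)).trans (le_abs_self M)
        have h3 : 0 ≤ c * ‖w‖ ^ (2 * k) := by positivity
        linarith
      · have h2 := hR w h
        have h3 := abs_nonneg M
        linarith
    have hb2 : ∀ y : Fin 2 → ℂ, ‖he k F y‖ ≤ ‖y 0‖ ^ (2 * k) * |M| + c * ‖y 1‖ ^ (2 * k) := by
      intro y
      unfold he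
      rw [norm_mul, Complex.norm_real, Real.norm_of_nonneg (by positivity)]
      rcases eq_or_ne (y 0) 0 with hy | hy
      · rw [hy, norm_zero, Real.zero_rpow (by positivity)]
        simp only [zero_mul, zero_add]
        positivity
      · refine (mul_le_mul_of_nonneg_left (hb (y 1 / y 0)) (by positivity)).trans (le_of_eq ?_)
        have hy' : 0 < ‖y 0‖ := norm_pos_iff.mpr hy
        have hy2 : 0 < ‖y 0‖ ^ (2 * k) := by positivity
        rw [norm_div, Real.div_rpow (norm_nonneg _) (norm_nonneg _)]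
        field_simp
    have hlim : Tendsto (fun y : Fin 2 → ℂ => ‖y 0‖ ^ (2 * k) * |M| + c * ‖y 1‖ ^ (2 * k)) (𝓝 z) (𝓝 (‖z 0‖ ^ (2 * k) * |M| + c * ‖z 1‖ ^ (2 * k))) := by
      have hn1 : ContinuousAt (fun z : Fin 2 → ℂ => ‖z 1‖ ^ (2 * k)) z := h1.norm.rpow_const (Or.inr (by positivity))
      exact (hn.tendsto.mul_const _).add (hn1.tendsto.const_mul _)
    have hval : ‖z 0‖ ^ (2 * k) * |M| + c * ‖z 1‖ ^ (2 * k) < ε := by
      rw [hz, norm_zero, Real.zero_rpow (by positivity), zero_mul, zero_add, hc]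
      have h5 : 0 ≤ ‖z 1‖ ^ (2 * k) := by positivity
      rw [div_mul_eq_mul_div, div_lt_iff₀ (by positivity)]
      nlinarith
    filter_upwards [hlim.eventually (gt_mem_nhds hval)] with y hy
    rw [dist_zero_right]
    exact (hb2 y).trans_lt hy
  · unfold he
    have h2 : ContinuousAt (fun z : Fin 2 → ℂ => F (z 1 / z 0)) z := ContinuousAt.comp (g := F) hF.continuousAt (h1.div h0 hz)
    exact (Complex.continuous_ofReal.continuousAt.comp hn).mul h2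

/-- products of powers -/
noncomputable def pq (k h : ℝ) (z : Fin 2 → ℂ) : ℂ := ((‖z 0‖ ^ (2 * (k - h)) * ‖z 1‖ ^ (2 * h) : ℝ) : ℂ)

lemma pq_cont {k h : ℝ} (hh : 0 ≤ h) (hhk : h ≤ k) : Continuous (pq k h) := by
  unfold pq
  refine Complex.continuous_ofReal.comp (Continuous.mul ?_ ?_)
  · exact Continuous.rpow_const (continuous_apply 0).norm fun _ => Or.inr (by linarith)
  · exact Continuous.rpow_const (continuous_apply 1).norm fun _ => Or.inr (by linarith)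

lemma pq_hom {k h : ℝ} (hh : 0 ≤ h) (hhk : h ≤ k) (u : ℂ) (z : Fin 2 → ℂ) : pq k h (u • z) = ((‖u‖ ^ (2 * k) : ℝ) : ℂ) * pq k h z := by
  unfold pq
  simp only [Pi.smul_apply, smul_eq_mul]
  rw [← Complex.ofReal_mul, norm_mul, norm_mul, Real.mul_rpow (norm_nonneg _) (norm_nonneg _), Real.mul_rpow (norm_nonneg _) (norm_nonneg _)]
  congr 1
  have e : ‖u‖ ^ (2 * k) = ‖u‖ ^ (2 * (k - h)) * ‖u‖ ^ (2 * h) := by
    rw [← Real.rpow_add_of_nonneg (norm_nonneg _) (by linarith) (by linarith)]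
    congr 1
    ring
  rw [e]
  ring

/-- the constant in the joint moments -/
noncomputable def momC (k h : ℝ) : ℝ := Real.exp (-k ^ 2) * ∑' m : ℕ, (k ^ 2) ^ m * Real.Gamma (h + m + 1) / (m.factorial : ℝ) ^ 2

lemma momC_summable {k h : ℝ} (hk : 0 < k) (hh : 0 ≤ h) : Summable fun m : ℕ => (k ^ 2) ^ m * Real.Gamma (h + m + 1) / (m.factorial : ℝ) ^ 2 := by
  have hpos : ∀ m : ℕ, 0 < (k ^ 2) ^ m * Real.Gamma (h + m + 1) / (m.factorial : ℝ) ^ 2 := by
    intro m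
    have : 0 < Real.Gamma (h + m + 1) := Real.Gamma_pos_of_pos (by positivity)
    positivity
  refine summable_of_ratio_test_tendsto_lt_one (l := 0) (by norm_num) (Eventually.of_forall fun m => (hpos m).ne') ?_
  have e : ∀ m : ℕ, ‖(k ^ 2) ^ (m + 1) * Real.Gamma (h + ((m + 1 : ℕ) : ℝ) + 1) / ((m + 1).factorial : ℝ) ^ 2‖ / ‖(k ^ 2) ^ m * Real.Gamma (h + m + 1) / (m.factorial : ℝ) ^ 2‖ =
      k ^ 2 * ((h + 1 / ((m:ℝ) + 1) * 0 + 0) * (1 / ((m:ℝ) + 1)) * (1 / ((m:ℝ) + 1)) + 1 / ((m:ℝ) + 1)) := by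
    intro m
    rw [Real.norm_of_nonneg (hpos m).le, Real.norm_of_nonneg (hpos (m + 1)).le]
    have h1 : Real.Gamma (h + ((m + 1 : ℕ) : ℝ) + 1) = (h + m + 1) * Real.Gamma (h + m + 1) := by
      rw [← Real.Gamma_add_one (by positivity)]
      congr 1
      push_cast
      ring
    have h2 : ((m + 1).factorial : ℝ) = ((m:ℝ) + 1) * (m.factorial : ℝ) := by
      rw [Nat.factorial_succ]
      push_cast
      ring
    rw [h1, h2, pow_succ]
    have h3 : 0 < Real.Gamma (h + m + 1) := Real.Gamma_pos_of_pos (by positivity)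
    have h4 : (0:ℝ) < m.factorial := by positivity
    field_simp
    ring
  have hl : Tendsto (fun m : ℕ => 1 / ((m:ℝ) + 1)) atTop (𝓝 0) := tendsto_one_div_add_atTop_nhds_zero_nat
  have h5 : Tendsto (fun m : ℕ => k ^ 2 * ((h + 1 / ((m:ℝ) + 1) * 0 + 0) * (1 / ((m:ℝ) + 1)) * (1 / ((m:ℝ) + 1)) + 1 / ((m:ℝ) + 1))) atTop
      (𝓝 (k ^ 2 * ((h + 0 * 0 + 0) * 0 * 0 + 0))) :=
    ((((((hl.mul_const 0).const_add h).add_const 0).mul hl).mul hl).add hl).const_mul _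
  have h6 : k ^ 2 * ((h + 0 * 0 + 0) * 0 * 0 + 0) = 0 := by ring
  rw [h6] at h5
  refine h5.congr fun m => (e m).symm

lemma momC_pos {k h : ℝ} (hk : 0 < k) (hh : 0 ≤ h) : 0 < momC k h := by
  unfold momC
  refine mul_pos (Real.exp_pos _) ?_
  refine (momC_summable hk hh).tsum_pos (fun m => ?_) 0 ?_
  · have : 0 < Real.Gamma (h + m + 1) := Real.Gamma_pos_of_pos (by positivity)
    positivity
  · have : 0 < Real.Gamma (h + (0:ℕ) + 1) := Real.Gamma_pos_of_pos (by positivity)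
    positivity

lemma momC_one (k : ℝ) : momC k 1 = 1 + k ^ 2 := by
  unfold momC
  have h1 : HasSum (fun m : ℕ => (k ^ 2) ^ m / (m.factorial : ℝ)) (Real.exp (k ^ 2)) := by
    rw [Real.exp_eq_exp_ℝ]
    exact NormedSpace.expSeries_div_hasSum_exp (k ^ 2)
  have h2 : HasSum (fun m : ℕ => (m : ℝ) * ((k ^ 2) ^ m / (m.factorial : ℝ))) (k ^ 2 * Real.exp (k ^ 2)) := by
    have h3 : HasSum (fun m : ℕ => ((m + 1 : ℕ) : ℝ) * ((k ^ 2) ^ (m + 1) / ((m + 1).factorial : ℝ))) (k ^ 2 * Real.exp (k ^ 2)) := by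
      refine (h1.mul_left (k ^ 2)).congr_fun fun m => ?_
      rw [Nat.factorial_succ, pow_succ]
      push_cast
      field_simp
    have h4 := (hasSum_nat_add_iff (f := fun m : ℕ => (m : ℝ) * ((k ^ 2) ^ m / (m.factorial : ℝ))) 1).mp h3
    simpa using h4
  have h5 : HasSum (fun m : ℕ => (k ^ 2) ^ m * Real.Gamma (1 + m + 1) / (m.factorial : ℝ) ^ 2) (Real.exp (k ^ 2) + k ^ 2 * Real.exp (k ^ 2)) := by
    refine (h1.add h2).congr_fun fun m => ?_
    have e1 : (1:ℝ) + m + 1 = ((m + 1 : ℕ) : ℝ) + 1 := by push_cast; ring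
    rw [e1, Real.Gamma_nat_eq_factorial, Nat.factorial_succ]
    push_cast
    have : (m.factorial : ℝ) ≠ 0 := by positivity
    field_simp
    ring
  rw [h5.tsum_eq, Real.exp_neg]
  have := Real.exp_pos (k ^ 2)
  field_simp

end Pool.Agent.Run7.h145.JN
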