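import Mathlib

set_option autoImplicit false

/-! Taylor coefficients as continuous functionals on the continuous functions on a disc. -/

namespace Pool.Agent.Run7.h145.JN

open MeasureTheory Filter Topology Complex Metric

/-- the closed disc -/
def K : Set ℂ := closedBall (1:ℂ) (1 / 2)

lemma K_compact : IsCompact K := isCompact_closedBall _ _

instance : CompactSpace K := isCompact_iff_compactSpace.mp K_compact

lemma K_re : ∀ w ∈ K, 0 < w.re := by
  intro w hw
  have h1 : ‖w - 1‖ ≤ 1 / 2 := by rw [← dist_eq_norm]; exact hw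
  have h2 := (Complex.abs_re_le_norm (w - 1)).trans h1
  rw [Complex.sub_re, Complex.one_re, abs_le] at h2
  linarith [h2.1]

lemma cm_mem (θ : ℝ) : circleMap (1:ℂ) (1 / 2) θ ∈ K := circleMap_mem_closedBall (1:ℂ) (by norm_num) θ

/-- the kernel -/
noncomputable def ker (j : ℕ) (θ : ℝ) : ℂ :=
  deriv (circleMap (1:ℂ) (1 / 2)) θ * (1 / (circleMap (1:ℂ) (1 / 2) θ - 1) ^ (j + 1))

lemma cm_sub (θ : ℝ) : ‖circleMap (1:ℂ) (1 / 2) θ - 1‖ = 1 / 2 := by
  have h := circleMap_mem_sphere (1:ℂ) (by norm_num : (0:ℝ) ≤ 1 / 2) θ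
  rwa [mem_sphere, dist_eq_norm] at h

lemma cm_ne (θ : ℝ) : circleMap (1:ℂ) (1 / 2) θ - 1 ≠ 0 := by
  rw [← norm_pos_iff, cm_sub]
  norm_num

lemma ker_cont (j : ℕ) : Continuous (ker j) := by
  unfold ker
  have h1 : Continuous (circleMap (1:ℂ) (1 / 2)) := continuous_circleMap _ _
  simp_rw [deriv_circleMap]
  refine Continuous.mul ((continuous_circleMap _ _).mul continuous_const) ?_
  exact continuous_const.div ((h1.sub continuous_const).pow _) fun θ => pow_ne_zero _ (cm_ne θ)

lemma ker_norm (j : ℕ) (θ : ℝ) : ‖ker j θ‖ = 2 ^ j := by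
  unfold ker
  rw [deriv_circleMap, norm_mul, norm_mul, Complex.norm_I, mul_one, norm_div, norm_one, norm_pow, cm_sub]
  have h : ‖circleMap (0:ℂ) (1 / 2) θ‖ = 1 / 2 := by
    rw [norm_circleMap_zero]
    norm_num
  rw [h, pow_succ]
  field_simp
  rw [← mul_pow]
  norm_num

/-- the value on the circle -/
noncomputable def cv (f : C(K, ℂ)) (θ : ℝ) : ℂ := f ⟨circleMap (1:ℂ) (1 / 2) θ, cm_mem θ⟩

lemma cv_cont (f : C(K, ℂ)) : Continuous (cv f) :=
  f.continuous.comp ((continuous_circleMap _ _).subtype_mk _)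

/-- the functional -/
noncomputable def jl (j : ℕ) : C(K, ℂ) →L[ℂ] ℂ :=
  LinearMap.mkContinuous
    { toFun := fun f => (2 ^ j * (j.factorial : ℂ)) * (2 * Real.pi * I)⁻¹ * ∫ θ in (0:ℝ)..(2 * Real.pi), ker j θ * cv f θ
      map_add' := by
        intro f g
        have h1 : ∀ θ, ker j θ * cv (f + g) θ = ker j θ * cv f θ + ker j θ * cv g θ := by
          intro θ
          show ker j θ * (cv f θ + cv g θ) = _
          ring
        simp_rw [h1]
        have h2 := intervalIntegral.integral_add (f := fun θ => ker j θ * cv f θ) (g := fun θ => ker j θ * cv g θ) (μ := volume)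
          (((ker_cont j).mul (cv_cont f)).intervalIntegrable 0 (2 * Real.pi)) (((ker_cont j).mul (cv_cont g)).intervalIntegrable 0 (2 * Real.pi))
        rw [h2]
        ring
      map_smul' := by
        intro u f
        have h1 : ∀ θ, ker j θ * cv (u • f) θ = u * (ker j θ * cv f θ) := by
          intro θ
          show ker j θ * (u * cv f θ) = _
          ring
        simp_rw [h1]
        rw [intervalIntegral.integral_const_mul]
        simp only [RingHom.id_apply, smul_eq_mul]
        ring }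
    (‖(2 ^ j * (j.factorial : ℂ)) * (2 * Real.pi * I)⁻¹‖ * (2 ^ j * |2 * Real.pi - 0|)) (by
      intro f
      show ‖(2 ^ j * (j.factorial : ℂ)) * (2 * Real.pi * I)⁻¹ * ∫ θ in (0:ℝ)..(2 * Real.pi), ker j θ * cv f θ‖ ≤ _
      rw [norm_mul]
      have h := intervalIntegral.norm_integral_le_of_norm_le_const (f := fun θ => ker j θ * cv f θ) (a := 0) (b := 2 * Real.pi)
        (C := 2 ^ j * ‖f‖) (by
          intro θ _
          rw [norm_mul, ker_norm]
          exact mul_le_mul_of_nonneg_left (f.norm_coe_le_norm _) (by positivity))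
      refine (mul_le_mul_of_nonneg_left h (norm_nonneg _)).trans (le_of_eq ?_)
      ring)

lemma jl_apply (j : ℕ) (f : C(K, ℂ)) :
    jl j f = (2 ^ j * (j.factorial : ℂ)) * (2 * Real.pi * I)⁻¹ * ∫ θ in (0:ℝ)..(2 * Real.pi), ker j θ * cv f θ := rfl

/-- the value at the restriction of an analytic function -/
lemma jl_eq (j : ℕ) (f : C(K, ℂ)) (F : ℂ → ℂ) (hf : ∀ w : K, f w = F w) (hF : DifferentiableOn ℂ F (closedBall (1:ℂ) (1 / 2))) :
    jl j f = 2 ^ j * iteratedDeriv j F 1 := by
  have h1 := DifferentiableOn.circleIntegral_one_div_sub_center_pow_smul (by norm_num : (0:ℝ) < 1 / 2) j hF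
  have h2 : (∮ z in C((1:ℂ), 1 / 2), (1 / (z - 1) ^ (j + 1)) • F z) = ∫ θ in (0:ℝ)..(2 * Real.pi), ker j θ * cv f θ := by
    unfold circleIntegral
    refine intervalIntegral.integral_congr fun θ _ => ?_
    show deriv (circleMap 1 (1 / 2)) θ • ((1 / (circleMap 1 (1 / 2) θ - 1) ^ (j + 1)) • F (circleMap 1 (1 / 2) θ)) = ker j θ * cv f θ
    unfold cv ker
    rw [hf]
    simp only [smul_eq_mul]
    ring
  rw [jl_apply, ← h2, h1]
  have h3 : (2 * (Real.pi:ℂ) * I) ≠ 0 := by
    simp [Real.pi_ne_zero]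
  have h4 : (j.factorial : ℂ) ≠ 0 := by
    exact_mod_cast j.factorial_ne_zero
  rw [smul_eq_mul]
  field_simp

/-- the derivatives of a function of `a + c w` -/
lemma itd_lin (f : ℂ → ℂ) (a c : ℂ) (j : ℕ) : iteratedDeriv j (fun w => f (a + c * w)) = fun w => c ^ j * iteratedDeriv j f (a + c * w) := by
  induction j with
  | zero => funext w; simp
  | succ j ih =>
    rw [iteratedDeriv_succ, ih]
    funext w
    rw [deriv_const_mul_field]
    have h1 := deriv_comp_mul_left c (fun y => iteratedDeriv j f (a + y)) w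
    have h2 : deriv (fun y => iteratedDeriv j f (a + y)) (c * w) = deriv (iteratedDeriv j f) (a + c * w) := deriv_comp_const_add _ _ _
    rw [h1, h2, iteratedDeriv_succ, smul_eq_mul, pow_succ]
    ring

end Pool.Agent.Run7.h145.JN
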